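import Mathlib
import Pool.Agent.H.MP_12bcff_ag.Orbit

namespace Pool.Agent.Results.MP_12bcff_ag.TwoVariables

open MvPolynomial

open Pool.Agent.H.MP_12bcff_ag in
theorem result (F : Type) [Field F] [Finite F] :
    ∃ (G : Fin 2 → MvPolynomial (Fin 2) F) (Y : Ideal (MvPolynomial (Fin 2) F))
      (T : (Fin 2 → AlgebraicClosure F) → (Fin 2 → AlgebraicClosure F)),
      (∀ y i, T y i = aeval y (G i)) ∧ (zeroLocus (AlgebraicClosure F) Y).Nonempty ∧
      (∃ P, T P = P ∧ ∀ y ∈ zeroLocus (AlgebraicClosure F) Y, ∃ k, 1 ≤ k ∧ T^[k] y = P) ∧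
      ¬ ∃ P, T P = P ∧ ∃ k, 1 ≤ k ∧ T^[k] '' zeroLocus (AlgebraicClosure F) Y = {P} := by
  obtain ⟨T, hT⟩ : ∃ T : (Fin 2 → AlgebraicClosure F) → (Fin 2 → AlgebraicClosure F),
    T = fun y => ![y 1, y 1 * (y 0 + 1)] := ⟨_, rfl⟩
  have h0 : T 0 = 0 := by ext i; fin_cases i <;> simp [hT]
  refine ⟨![X 1, X 1 * (X 0 + 1)], Ideal.span {X 0}, T, fun y i => by fin_cases i <;> simp [hT],
    ⟨0, (mem_line _ _ _).mpr rfl⟩, ⟨0, h0, fun y hy => ?_⟩, ?_⟩
  · rw [mem_line] at hy
    obtain ⟨n, hn⟩ := leave T {y | y 1 ≠ 0} _ (by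
      intro a ha b _ e
      have e0 := congrFun e 0
      have e1 := congrFun e 1
      simp only [hT, Matrix.cons_val_zero, Matrix.cons_val_one] at e0 e1
      rw [← e0] at e1
      ext i
      fin_cases i
      · exact add_right_cancel (mul_left_cancel₀ ha e1)
      · exact e0) (box F (y 1)) (by
      intro a ha i
      fin_cases i
      · simpa [hT] using ha 1
      · simpa [hT] using mul_mem (ha 1) (add_mem (ha 0) (one_mem _))) y (by
      intro i
      fin_cases i
      · simp [hy]
      · exact IntermediateField.mem_adjoin_simple_self F _) (by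
      intro a ha e
      have e0 := congrFun e 0
      simp only [hT, Matrix.cons_val_zero] at e0
      exact ha (e0.trans hy))
    refine ⟨n + 1, by omega, ?_⟩
    rw [Function.iterate_succ_apply']
    have h1 : (T^[n] y) 1 = 0 := by simpa using hn
    generalize T^[n] y = z at h1
    ext i; fin_cases i <;> simp [hT, h1]
  · rintro ⟨P, -, k, -, h⟩
    have key : ∀ n : ℕ, ∃ A B : Polynomial (AlgebraicClosure F), A.eval 0 = 0 ∧ B.eval 0 = 0 ∧
        B ≠ 0 ∧ ∀ b, T^[n] ![0, b] = ![A.eval b, B.eval b] := by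
      intro n
      induction n with
      | zero => exact ⟨0, Polynomial.X, by simp, by simp, Polynomial.X_ne_zero, by simp⟩
      | succ n ih =>
        obtain ⟨A, B, h1, h2, h3, h4⟩ := ih
        refine ⟨B, B * (A + 1), h2, by simp [h2], mul_ne_zero h3 fun h5 => ?_, fun b => ?_⟩
        · have := congrArg (Polynomial.eval 0) h5
          simp [h1] at this
        · rw [Function.iterate_succ_apply', h4]
          simp [hT]
    obtain ⟨A, B, -, h2, h3, h4⟩ := key k
    apply h3
    refine Polynomial.funext fun b => ?_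
    have m : ∀ b, T^[k] ![0, b] = P := fun b =>
      h.le ⟨![0, b], (mem_line _ _ _).mpr rfl, rfl⟩
    have := congrFun ((h4 b).symm.trans ((m b).trans ((m 0).symm.trans (h4 0)))) 1
    simpa [h2] using this

end Pool.Agent.Results.MP_12bcff_ag.TwoVariables
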